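import Pool.Agent.Feig.Extract

/-!
For every real exponent `1 < r ≤ 2` the period-doubling fixed point equation has at most one
solution in the class `Ω_{r,0}` of the problem.
-/

set_option autoImplicit false

namespace Pool.Agent.Results.MP_9835e8_an.UniqueRLeTwo

/-- The frozen statement of the problem with the extra hypothesis `r ≤ 2`. -/
theorem result :
    ∀ (D : Set ℂ), IsOpen D → IsConnected D →
      (∀ t : ℝ, t ∈ Set.Icc (0:ℝ) 1 → (t : ℂ) ∈ D) →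
      ∀ r : ℝ, 1 < r → r ≤ 2 →
      ∀ φ₁ φ₂ : ℝ → ℝ,
        (∀ φ ∈ ({φ₁, φ₂} : Set (ℝ → ℝ)),
          (∃ F : ℂ → ℂ,
            AnalyticOnNhd ℂ F D ∧
            ContinuousOn F (closure D) ∧
            (∃ C : ℝ, ∀ z ∈ closure D, ‖F z‖ ≤ C) ∧
            (∀ y : ℝ, y ∈ Set.Icc (0:ℝ) 1 → (F (y : ℂ)).im = 0) ∧
            F 0 = 0 ∧
            (∀ y : ℝ, y ∈ Set.Icc (0:ℝ) 1 → (deriv F (y : ℂ)).re < 0) ∧
            (∀ x : ℝ, x ∈ Set.Icc (-1:ℝ) 1 →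
              φ x = 1 + (F (((|x| ^ r : ℝ)) : ℂ)).re)) ∧
          (∀ x : ℝ, x ∈ Set.Icc (-1:ℝ) 1 → -1 < φ x ∧ φ x ≤ 1) ∧
          (φ^[2] 0 < 0 ∧ 0 < φ^[4] 0 ∧ φ^[4] 0 < -(φ^[2] 0) ∧
            -(φ^[2] 0) < φ^[3] 0 ∧ φ^[3] 0 < 1) ∧
          (∀ x : ℝ, x ∈ Set.Icc (-1:ℝ) 1 →
            φ x = (φ 1)⁻¹ * φ (φ (φ 1 * x)))) →
        ∀ x : ℝ, x ∈ Set.Icc (-1:ℝ) 1 → φ₁ x = φ₂ x := by
  intro D hD _ hDI r hr hr2 φ₁ φ₂ H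
  exact Pool.Agent.Feig.main D hD hDI r hr hr2 φ₁ φ₂ H

end Pool.Agent.Results.MP_9835e8_an.UniqueRLeTwo
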